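import Pool.Agent.Helper58.QC.Three
import Pool.Agent.Helper22.Half.FamExt
import Pool.Agent.Helper58.BF.ExLog

set_option autoImplicit false

open MeasureTheory Set Metric Filter Topology
open scoped Real ComplexConjugate

/-!
Negative powers of the derivative for holomorphic families in the class Σ: three circles in the
parameter.
-/

namespace Pool.Agent.Helper58.QC

open Pool.Agent.Helper22.Half (SigmaLog HolFam mInt)
open Pool.Agent.Helper39.Area (toDisc inv_mem isOpen_ext)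

/-- the bound of the class Σ for the power `-q` with the exponent `s` -/
def Bd (q s : ℝ) : Prop :=
  ∃ C : ℝ, ∀ ψ : ℂ → ℂ, DifferentiableOn ℂ ψ {z : ℂ | 1 < ‖z‖} →
    InjOn ψ {z : ℂ | 1 < ‖z‖} →
    (∃ b : ℂ, Filter.Tendsto (fun z => ψ z - z) (Bornology.cobounded ℂ) (nhds b)) →
    ∀ R : ℝ, 1 < R →
    (2 * π)⁻¹ * (∫ θ in (0:ℝ)..(2 * π),
      ‖deriv ψ (R * Complex.exp (θ * Complex.I))‖ ^ (-q)) ≤ C * (R ^ 2 / (R ^ 2 - 1)) ^ s

theorem circ_ext {R : ℝ} (hR : 1 < R) (θ : ℝ) :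
    1 < ‖(R : ℂ) * Complex.exp ((θ : ℂ) * Complex.I)‖ := by
  rw [norm_mul, Complex.norm_exp_ofReal_mul_I, mul_one, Complex.norm_real,
    Real.norm_of_nonneg (by linarith)]
  exact hR

theorem circ_ne {R : ℝ} (hR : 1 < R) (θ : ℝ) :
    (R : ℂ) * Complex.exp ((θ : ℂ) * Complex.I) ≠ 0 := by
  intro h
  have := circ_ext hR θ
  rw [h, norm_zero] at this
  linarith

theorem circ_inv_mem {R : ℝ} (hR : 1 < R) (θ : ℝ) :
    ((R : ℂ) * Complex.exp ((θ : ℂ) * Complex.I))⁻¹ ∈ ball (0:ℂ) 1 := by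
  rw [mem_ball_zero_iff, norm_inv]
  exact inv_lt_one_of_one_lt₀ (circ_ext hR θ)

theorem toDisc_inv {z : ℂ} (hz : z ≠ 0) (g : ℂ → ℂ) : toDisc 0 g z⁻¹ = g z := by
  simp only [toDisc]
  rw [if_neg (inv_ne_zero hz), inv_inv]

theorem log_pos {R : ℝ} (hR : 1 < R) : 0 < Real.log (R ^ 2 / (R ^ 2 - 1)) := by
  have h1 : 0 < R ^ 2 - 1 := by nlinarith
  apply Real.log_pos
  rw [one_lt_div h1]
  linarith

theorem X_pos {R : ℝ} (hR : 1 < R) : 0 < R ^ 2 / (R ^ 2 - 1) := by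
  have h1 : 0 < R ^ 2 - 1 := by nlinarith
  positivity

/-- the mean of the exponential of a real multiple from the square exponential mean -/
theorem mean_of_mInt {a q R C : ℝ} (ha : 0 < a) (hR : 1 < R) {h : ℂ → ℂ}
    (hc : Continuous fun θ : ℝ => h ((R : ℂ) * Complex.exp ((θ : ℂ) * Complex.I)))
    (H : mInt a R h ≤ C) :
    ∫ θ in (0:ℝ)..(2 * π),
      ‖Complex.exp (-(q : ℂ) * h ((R : ℂ) * Complex.exp ((θ : ℂ) * Complex.I)))‖ ≤
      2 * π * C * (R ^ 2 / (R ^ 2 - 1)) ^ (q ^ 2 / (4 * a)) := by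
  obtain ⟨L, hL⟩ : ∃ L : ℝ, L = Real.log (R ^ 2 / (R ^ 2 - 1)) := ⟨_, rfl⟩
  have hL0 : 0 < L := by rw [hL]; exact log_pos hR
  have hpi := Real.pi_pos
  unfold mInt at H
  rw [one_div, inv_mul_le_iff₀ (by positivity), ← hL] at H
  have hX : (R ^ 2 / (R ^ 2 - 1)) ^ (q ^ 2 / (4 * a)) = Real.exp (q ^ 2 * L / (4 * a)) := by
    rw [Real.rpow_def_of_pos (X_pos hR), ← hL]
    congr 1
    ring
  rw [hX]
  have hpt : ∀ θ : ℝ,
      ‖Complex.exp (-(q : ℂ) * h ((R : ℂ) * Complex.exp ((θ : ℂ) * Complex.I)))‖ ≤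
      Real.exp (q ^ 2 * L / (4 * a)) *
        Real.exp (a * ‖h ((R : ℂ) * Complex.exp ((θ : ℂ) * Complex.I))‖ ^ 2 / L) := by
    intro θ
    obtain ⟨w, hw⟩ : ∃ w : ℂ, w = h ((R : ℂ) * Complex.exp ((θ : ℂ) * Complex.I)) := ⟨_, rfl⟩
    rw [← hw, ← Real.exp_add, Complex.norm_exp]
    apply Real.exp_le_exp.2
    have h1 : (-(q : ℂ) * w).re ≤ |q| * ‖w‖ := by
      calc (-(q : ℂ) * w).re ≤ ‖-(q : ℂ) * w‖ := Complex.re_le_norm _
        _ = |q| * ‖w‖ := by rw [norm_mul, norm_neg, Complex.norm_real, Real.norm_eq_abs]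
    refine h1.trans ?_
    have h2 : q ^ 2 * L / (4 * a) + a * ‖w‖ ^ 2 / L - |q| * ‖w‖ =
        (|q| * L - 2 * a * ‖w‖) ^ 2 / (4 * a * L) := by
      field_simp
      have : |q| ^ 2 = q ^ 2 := sq_abs q
      nlinarith [this]
    have h3 : 0 ≤ (|q| * L - 2 * a * ‖w‖) ^ 2 / (4 * a * L) := by positivity
    linarith
  have hi : IntervalIntegrable (fun θ : ℝ =>
      ‖Complex.exp (-(q : ℂ) * h ((R : ℂ) * Complex.exp ((θ : ℂ) * Complex.I)))‖) volume 0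
      (2 * π) := by
    apply Continuous.intervalIntegrable
    exact (continuous_const.mul hc).cexp.norm
  have hi2 : IntervalIntegrable (fun θ : ℝ => Real.exp (q ^ 2 * L / (4 * a)) *
        Real.exp (a * ‖h ((R : ℂ) * Complex.exp ((θ : ℂ) * Complex.I))‖ ^ 2 / L)) volume 0
      (2 * π) := by
    apply Continuous.intervalIntegrable
    exact continuous_const.mul
      (Real.continuous_exp.comp ((continuous_const.mul (hc.norm.pow 2)).div_const L))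
  calc _ ≤ ∫ θ in (0:ℝ)..(2 * π), Real.exp (q ^ 2 * L / (4 * a)) *
        Real.exp (a * ‖h ((R : ℂ) * Complex.exp ((θ : ℂ) * Complex.I))‖ ^ 2 / L) :=
        intervalIntegral.integral_mono_on (by positivity) hi hi2 fun θ _ => hpt θ
    _ = Real.exp (q ^ 2 * L / (4 * a)) * ∫ θ in (0:ℝ)..(2 * π),
        Real.exp (a * ‖h ((R : ℂ) * Complex.exp ((θ : ℂ) * Complex.I))‖ ^ 2 / L) := by
        rw [intervalIntegral.integral_const_mul]
    _ ≤ Real.exp (q ^ 2 * L / (4 * a)) * (2 * π * C) :=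
        mul_le_mul_of_nonneg_left H (Real.exp_pos _).le
    _ = _ := by ring

theorem h_circ_cont {ψ h : ℂ → ℂ} (H : SigmaLog ψ h) {R : ℝ} (hR : 1 < R) :
    Continuous fun θ : ℝ => h ((R : ℂ) * Complex.exp ((θ : ℂ) * Complex.I)) :=
  H.hdiff.continuousOn.comp_continuous (by fun_prop) fun θ => circ_ext hR θ

/-- the function of the parameter and the angle -/
noncomputable def FF (h : ℂ → ℂ → ℂ) (q R : ℝ) (l : ℂ) (θ : ℝ) : ℂ :=
  Complex.exp (-(q : ℂ) * h l ((R : ℂ) * Complex.exp ((θ : ℂ) * Complex.I)))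

theorem FF_hol {ψ h : ℂ → ℂ → ℂ} (H : HolFam ψ h) {q R : ℝ} (hR : 1 < R) (θ : ℝ) :
    DifferentiableOn ℂ (fun l => FF h q R l θ) (ball 0 1) := by
  have h1 := H.h_hol (circ_inv_mem hR θ)
  have h2 : DifferentiableOn ℂ
      (fun l => h l ((R : ℂ) * Complex.exp ((θ : ℂ) * Complex.I))) (ball 0 1) := by
    apply h1.congr
    intro l _
    exact (toDisc_inv (circ_ne hR θ) (h l)).symm
  exact (h2.const_mul _).cexp

theorem FF_cont {ψ h : ℂ → ℂ → ℂ} (H : HolFam ψ h) {q R : ℝ} (hR : 1 < R) :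
    ContinuousOn (fun p : ℂ × ℝ => FF h q R p.1 p.2) (ball (0:ℂ) 1 ×ˢ univ) := by
  have h1 : ContinuousOn (fun p : ℂ × ℝ => toDisc 0 (h p.1)
      ((R : ℂ) * Complex.exp ((p.2 : ℂ) * Complex.I))⁻¹) (ball (0:ℂ) 1 ×ˢ univ) := by
    apply H.h_cont.comp (f := fun p : ℂ × ℝ => (p.1,
      ((R : ℂ) * Complex.exp ((p.2 : ℂ) * Complex.I))⁻¹))
    · apply ContinuousOn.prodMk continuousOn_fst
      apply ContinuousOn.inv₀ (by fun_prop)
      intro p _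
      exact circ_ne hR p.2
    · intro p hp
      exact ⟨hp.1, circ_inv_mem hR p.2⟩
  have h2 : ContinuousOn (fun p : ℂ × ℝ => h p.1
      ((R : ℂ) * Complex.exp ((p.2 : ℂ) * Complex.I))) (ball (0:ℂ) 1 ×ˢ univ) := by
    apply h1.congr
    intro p _
    exact (toDisc_inv (circ_ne hR p.2) (h p.1)).symm
  exact (continuousOn_const.mul h2).cexp

theorem FF_ne (h : ℂ → ℂ → ℂ) (q R : ℝ) (l : ℂ) (θ : ℝ) : FF h q R l θ ≠ 0 :=
  Complex.exp_ne_zero _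

theorem FF_norm {ψ h : ℂ → ℂ} (H : SigmaLog ψ h) {q R : ℝ} (hR : 1 < R) (θ : ℝ) :
    ‖Complex.exp (-(q : ℂ) * h ((R : ℂ) * Complex.exp ((θ : ℂ) * Complex.I)))‖ =
      ‖deriv ψ ((R : ℂ) * Complex.exp ((θ : ℂ) * Complex.I))‖ ^ (-q) := by
  rw [← H.exp_eq _ (circ_ext hR θ), Complex.norm_exp, Complex.norm_exp, ← Real.exp_mul]
  congr 1
  rw [← Complex.ofReal_neg, Complex.re_ofReal_mul]
  ring

/-- **the interpolated bound for a holomorphic family** -/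
theorem fam_three {a q s₁ s₂ r₀ k κ : ℝ} (ha : 0 < a) (hr0 : 0 < r₀) (hk : r₀ < k) (hκ : k < κ)
    (hκ1 : κ < 1) (hs : Bd q s₁)
    (hfam : ∃ C : ℝ, ∀ R : ℝ, 1 < R → ∀ ψ h : ℂ → ℂ → ℂ, HolFam ψ h →
      ∀ l : ℂ, ‖l‖ ≤ r₀ → mInt a R (h l) ≤ C)
    (hexp : (1 - (Real.log k - Real.log r₀) / (Real.log κ - Real.log r₀)) * (q ^ 2 / (4 * a)) +
      (Real.log k - Real.log r₀) / (Real.log κ - Real.log r₀) * s₁ ≤ s₂) :
    ∃ C : ℝ, ∀ ψ h : ℂ → ℂ → ℂ, HolFam ψ h → ∀ l : ℂ, ‖l‖ ≤ k → ∀ R : ℝ, 1 < R →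
      (2 * π)⁻¹ * (∫ θ in (0:ℝ)..(2 * π),
        ‖deriv (ψ l) ((R : ℂ) * Complex.exp ((θ : ℂ) * Complex.I))‖ ^ (-q)) ≤
        C * (R ^ 2 / (R ^ 2 - 1)) ^ s₂ := by
  obtain ⟨C₁, hC₁⟩ := hs
  obtain ⟨C₀, hC₀⟩ := hfam
  have hpi := Real.pi_pos
  obtain ⟨τ, hτ⟩ : ∃ τ : ℝ, τ = (Real.log k - Real.log r₀) / (Real.log κ - Real.log r₀) :=
    ⟨_, rfl⟩
  rw [← hτ] at hexp
  obtain ⟨A, hA⟩ : ∃ A : ℝ, A = 2 * π * max C₀ 1 := ⟨_, rfl⟩
  obtain ⟨B, hB⟩ : ∃ B : ℝ, B = 2 * π * max C₁ 1 := ⟨_, rfl⟩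
  have hA0 : 0 < A := by rw [hA]; positivity
  have hB0 : 0 < B := by rw [hB]; positivity
  refine ⟨(2 * π)⁻¹ * (A ^ (1 - τ) * B ^ τ), ?_⟩
  intro ψ h H l hl R hR
  have hk0 : 0 < k := hr0.trans hk
  have hk1 : k < 1 := hκ.trans hκ1
  have hl1 : l ∈ ball (0:ℂ) 1 := by rw [mem_ball_zero_iff]; linarith
  obtain ⟨X, hX⟩ : ∃ X : ℝ, X = R ^ 2 / (R ^ 2 - 1) := ⟨_, rfl⟩
  have hX0 : 0 < X := by rw [hX]; exact X_pos hR
  have hX1 : 1 ≤ X := by
    have h1 : 0 < R ^ 2 - 1 := by nlinarith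
    rw [hX, one_le_div h1]
    linarith
  have e1 : (∫ θ in (0:ℝ)..(2 * π),
      ‖deriv (ψ l) ((R : ℂ) * Complex.exp ((θ : ℂ) * Complex.I))‖ ^ (-q)) =
      ∫ θ in (0:ℝ)..(2 * π), ‖FF h q R l θ‖ := by
    apply intervalIntegral.integral_congr
    intro θ _
    exact (FF_norm (H.mem l hl1) hR θ).symm
  rw [e1, ← hX, mul_assoc]
  apply mul_le_mul_of_nonneg_left _ (by positivity)
  -- it is enough to treat the circle of radius `k`
  refine max_int (fun θ => FF_hol H hR θ) (FF_cont H hR) (FF_ne h q R) (by positivity) hk0 hk1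
    (fun l' hl' => ?_) hl
  have hrA : ∀ m : ℂ, ‖m‖ = r₀ → ∫ θ in (0:ℝ)..(2 * π), ‖FF h q R m θ‖ ≤
      A * X ^ (q ^ 2 / (4 * a)) := by
    intro m hm
    have hm1 : m ∈ ball (0:ℂ) 1 := by rw [mem_ball_zero_iff, hm]; linarith
    refine (mean_of_mInt (q := q) ha hR (h_circ_cont (H.mem m hm1) hR)
      (hC₀ R hR ψ h H m hm.le)).trans ?_
    rw [← hX, hA]
    gcongr
    exact le_max_left _ _
  have hrB : ∀ m : ℂ, ‖m‖ = κ → ∫ θ in (0:ℝ)..(2 * π), ‖FF h q R m θ‖ ≤ B * X ^ s₁ := by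
    intro m hm
    have hm1 : m ∈ ball (0:ℂ) 1 := by rw [mem_ball_zero_iff, hm]; linarith
    have h1 := hC₁ (ψ m) (H.mem m hm1).diff (H.mem m hm1).inj (H.mem m hm1).normalised R hR
    rw [inv_mul_le_iff₀ (by positivity), ← hX] at h1
    have e2 : (∫ θ in (0:ℝ)..(2 * π), ‖FF h q R m θ‖) = ∫ θ in (0:ℝ)..(2 * π),
        ‖deriv (ψ m) ((R : ℂ) * Complex.exp ((θ : ℂ) * Complex.I))‖ ^ (-q) := by
      apply intervalIntegral.integral_congr
      intro θ _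
      exact FF_norm (H.mem m hm1) hR θ
    rw [e2]
    refine h1.trans ?_
    rw [hB, ← mul_assoc]
    gcongr
    exact le_max_left _ _
  have key := three_int (fun θ => FF_hol H hR θ) (FF_cont H hR) (FF_ne h q R)
    (by positivity : (0:ℝ) ≤ 2 * π) hr0 (hk.trans hκ) hκ1 hrA hrB (l₀ := l') (by rw [hl']; exact hk.le)
    (by rw [hl']; exact hκ.le)
  rw [hl', ← hτ] at key
  refine key.trans ?_
  have hτ0 : 0 ≤ τ := by
    rw [hτ]
    apply div_nonneg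
    · linarith [Real.log_le_log hr0 hk.le]
    · linarith [Real.log_le_log hr0 (hk.trans hκ).le]
  rw [Real.mul_rpow hA0.le (by positivity), Real.mul_rpow hB0.le (by positivity),
    ← Real.rpow_mul hX0.le, ← Real.rpow_mul hX0.le]
  calc A ^ (1 - τ) * X ^ (q ^ 2 / (4 * a) * (1 - τ)) * (B ^ τ * X ^ (s₁ * τ))
      = A ^ (1 - τ) * B ^ τ * (X ^ (q ^ 2 / (4 * a) * (1 - τ)) * X ^ (s₁ * τ)) := by ring
    _ = A ^ (1 - τ) * B ^ τ * X ^ (q ^ 2 / (4 * a) * (1 - τ) + s₁ * τ) := by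
        rw [Real.rpow_add hX0]
    _ ≤ A ^ (1 - τ) * B ^ τ * X ^ s₂ := by
        apply mul_le_mul_of_nonneg_left _ (by positivity)
        apply Real.rpow_le_rpow_of_exponent_le hX1
        linarith

end Pool.Agent.Helper58.QC
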