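import Pool.Agent.Helper58.QC.Fam

set_option autoImplicit false

open MeasureTheory Set Metric Filter Topology
open scoped Real ComplexConjugate

/-!
Brennan's exponent for holomorphic families in the class Σ (maps with a quasiconformal extension).
-/

namespace Pool.Agent.Helper58.QC

open Pool.Agent.Helper22.Half (SigmaLog HolFam mInt)
open Pool.Agent.Helper39.Area (toDisc inv_mem isOpen_ext)
open Pool.Agent.Helper58.BF (exists_sigmaLog)

/-- the numerical inequality -/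
theorem numeric : (1 - (Real.log (299 / 301) - Real.log (4317 / 10000)) /
      (Real.log (999999 / 1000000) - Real.log (4317 / 10000))) *
        ((2:ℝ) ^ 2 / (4 * (2682 / 1000))) +
      (Real.log (299 / 301) - Real.log (4317 / 10000)) /
      (Real.log (999999 / 1000000) - Real.log (4317 / 10000)) * (1 + 1 / 200 + 1 / 10 ^ 6) ≤
      99999 / 100000 := by
  obtain ⟨a, ha⟩ : ∃ a : ℝ, a = Real.log (4317 / 10000) := ⟨_, rfl⟩
  obtain ⟨b, hb⟩ : ∃ b : ℝ, b = Real.log (299 / 301) := ⟨_, rfl⟩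
  obtain ⟨c, hc⟩ : ∃ c : ℝ, c = Real.log (999999 / 1000000) := ⟨_, rfl⟩
  have hN : (66656 / 10 ^ 7 : ℝ) ≤ c - b := by
    rw [hc, hb, ← Real.log_div (by norm_num) (by norm_num)]
    have h1 := Real.le_log_one_add_of_nonneg (x := 1999699 / 299000000) (by norm_num)
    have e1 : (1 : ℝ) + 1999699 / 299000000 = 999999 / 1000000 / (299 / 301) := by norm_num
    rw [e1] at h1
    refine le_trans ?_ h1
    norm_num
  have hD : c - a ≤ 84005 / 100000 := by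
    rw [hc, ha, ← Real.log_div (by norm_num) (by norm_num)]
    rw [Real.log_le_iff_le_exp (by norm_num)]
    have h1 := Real.sum_le_exp_of_nonneg (x := 84005 / 100000) (by norm_num) 10
    refine le_trans ?_ h1
    norm_num [Finset.sum_range_succ, Nat.factorial]
  have hca : 0 < c - a := by
    rw [hc, ha]
    have := Real.log_lt_log (x := 4317 / 10000) (y := 999999 / 1000000) (by norm_num)
      (by norm_num)
    linarith
  rw [← ha, ← hb, ← hc]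
  have e2 : (1 - (b - a) / (c - a)) * ((2:ℝ) ^ 2 / (4 * (2682 / 1000))) +
      (b - a) / (c - a) * (1 + 1 / 200 + 1 / 10 ^ 6) = (1 + 1 / 200 + 1 / 10 ^ 6) -
      (c - b) / (c - a) * ((1 + 1 / 200 + 1 / 10 ^ 6) - (2:ℝ) ^ 2 / (4 * (2682 / 1000))) := by
    field_simp
    ring
  rw [e2]
  have h3 : (66656 / 10 ^ 7) / (84005 / 100000 : ℝ) ≤ (c - b) / (c - a) := by
    apply div_le_div₀ (by linarith) hN hca hD
  have h4 : (66656 / 10 ^ 7) / (84005 / 100000 : ℝ) *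
      ((1 + 1 / 200 + 1 / 10 ^ 6) - (2:ℝ) ^ 2 / (4 * (2682 / 1000))) ≤
      (c - b) / (c - a) * ((1 + 1 / 200 + 1 / 10 ^ 6) - (2:ℝ) ^ 2 / (4 * (2682 / 1000))) := by
    apply mul_le_mul_of_nonneg_right h3
    norm_num
  refine le_trans (sub_le_sub_left h4 _) ?_
  norm_num

/-- **the exponent of the power `-2` for holomorphic families** -/
theorem fam_two (H : Bd 2 (1 + 1 / 200 + 1 / 10 ^ 6)) : ∃ C : ℝ, ∀ ψ h : ℂ → ℂ → ℂ,
    HolFam ψ h → ∀ l : ℂ, ‖l‖ ≤ 299 / 301 → ∀ R : ℝ, 1 < R →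
      (2 * π)⁻¹ * (∫ θ in (0:ℝ)..(2 * π),
        ‖deriv (ψ l) ((R : ℂ) * Complex.exp ((θ : ℂ) * Complex.I))‖ ^ (-2 : ℝ)) ≤
        C * (R ^ 2 / (R ^ 2 - 1)) ^ (99999 / 100000 : ℝ) := by
  obtain ⟨C, _, hC⟩ := Pool.Agent.Helper22.Half.mInt_family (k := 4317 / 10000) (a := 2682 / 1000)
    (by norm_num) (by norm_num) (by norm_num) (by norm_num)
  exact fam_three (a := 2682 / 1000) (q := 2) (s₁ := 1 + 1 / 200 + 1 / 10 ^ 6)
    (s₂ := 99999 / 100000) (r₀ := 4317 / 10000) (k := 299 / 301) (κ := 999999 / 1000000)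
    (by norm_num) (by norm_num) (by norm_num) (by norm_num) (by norm_num) H ⟨C, hC⟩ numeric

/-- the lower bound of the derivative -/
theorem deriv_lower {ψ h : ℂ → ℂ} (H : SigmaLog ψ h) {R : ℝ} (hR : 1 < R) (θ : ℝ) :
    (R ^ 2 / (R ^ 2 - 1))⁻¹ ≤ ‖deriv ψ ((R : ℂ) * Complex.exp ((θ : ℂ) * Complex.I))‖ := by
  have h1 := H.goluzin.2 _ (circ_inv_mem hR θ)
  rw [toDisc_inv (circ_ne hR θ)] at h1
  have e1 : ‖((R : ℂ) * Complex.exp ((θ : ℂ) * Complex.I))⁻¹‖ = R⁻¹ := by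
    rw [norm_inv, norm_mul, Complex.norm_exp_ofReal_mul_I, mul_one, Complex.norm_real,
      Real.norm_of_nonneg (by linarith)]
  have hR0 : R ≠ 0 := by linarith
  have hR2 : R ^ 2 - 1 ≠ 0 := by nlinarith
  have e2 : 1 / (1 - (R⁻¹) ^ 2) = R ^ 2 / (R ^ 2 - 1) := by
    field_simp
  rw [e1, e2] at h1
  have h2 : -Real.log (R ^ 2 / (R ^ 2 - 1)) ≤
      (h ((R : ℂ) * Complex.exp ((θ : ℂ) * Complex.I))).re := by
    have := Complex.abs_re_le_norm (h ((R : ℂ) * Complex.exp ((θ : ℂ) * Complex.I)))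
    have h3 := (abs_le.1 (this.trans h1)).1
    exact h3
  rw [← H.exp_eq _ (circ_ext hR θ), Complex.norm_exp]
  calc (R ^ 2 / (R ^ 2 - 1))⁻¹ = Real.exp (-Real.log (R ^ 2 / (R ^ 2 - 1))) := by
        rw [Real.exp_neg, Real.exp_log (X_pos hR)]
    _ ≤ _ := Real.exp_le_exp.2 h2

/-- **all powers `-p`, `p ≥ 2`** -/
theorem qc_final (H : Bd 2 (1 + 1 / 200 + 1 / 10 ^ 6)) : ∃ C : ℝ, ∀ ψ : ℂ → ℂ → ℂ,
    (∀ l : ℂ, ‖l‖ < 1 →
      DifferentiableOn ℂ (ψ l) {z : ℂ | 1 < ‖z‖} ∧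
      Set.InjOn (ψ l) {z : ℂ | 1 < ‖z‖} ∧
      (∃ b : ℂ, Filter.Tendsto (fun z => ψ l z - z) (Bornology.cobounded ℂ) (nhds b))) →
    (∀ z : ℂ, 1 < ‖z‖ → DifferentiableOn ℂ (fun l => ψ l z) {l : ℂ | ‖l‖ < 1}) →
    (∀ z : ℂ, 1 < ‖z‖ → ψ 0 z = z) →
    ∀ l : ℂ, ‖l‖ ≤ 299 / 301 → ∀ p : ℝ, 2 ≤ p → ∀ R : ℝ, 1 < R →
      (1 / (2 * Real.pi)) * ∫ θ in (0:ℝ)..(2 * Real.pi),
        ‖deriv (ψ l) ((R : ℂ) * Complex.exp ((θ : ℂ) * Complex.I))‖ ^ (-p)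
        ≤ C * (R ^ 2 / (R ^ 2 - 1)) ^ (p - 1 - 1 / 100000) := by
  obtain ⟨C, hC⟩ := fam_two H
  refine ⟨C, ?_⟩
  intro ψ hmem hhol hbase l hl p hp R hR
  have hball : Metric.ball (0:ℂ) 1 = {l : ℂ | ‖l‖ < 1} := by
    ext l
    simp
  have hex : ∀ l : ℂ, ‖l‖ < 1 → ∃ h : ℂ → ℂ, SigmaLog (ψ l) h := fun l hl =>
    exists_sigmaLog (hmem l hl).1 (hmem l hl).2.1 (hmem l hl).2.2
  choose! h hh using hex
  have HF : HolFam ψ h := by
    refine ⟨?_, ?_, hbase⟩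
    · intro l' hl'
      rw [hball] at hl'
      exact hh l' hl'
    · intro z hz
      rw [hball]
      exact hhol z hz
  have hl1 : ‖l‖ < 1 := by
    refine lt_of_le_of_lt hl ?_
    norm_num
  have h1 := hC ψ h HF l hl R hR
  have hpi := Real.pi_pos
  obtain ⟨X, hX⟩ : ∃ X : ℝ, X = R ^ 2 / (R ^ 2 - 1) := ⟨_, rfl⟩
  have hX0 : 0 < X := by rw [hX]; exact X_pos hR
  rw [← hX] at h1 ⊢
  rw [inv_mul_le_iff₀ (by positivity)] at h1
  rw [one_div, inv_mul_le_iff₀ (by positivity)]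
  have hlow : ∀ θ : ℝ, X⁻¹ ≤ ‖deriv (ψ l) ((R : ℂ) * Complex.exp ((θ : ℂ) * Complex.I))‖ := by
    intro θ
    rw [hX]
    exact deriv_lower (hh l hl1) hR θ
  have hcont : Continuous (fun θ : ℝ =>
      ‖deriv (ψ l) ((R : ℂ) * Complex.exp ((θ : ℂ) * Complex.I))‖) := by
    have hd := (hmem l hl1).1.deriv isOpen_ext
    exact (hd.continuousOn.comp_continuous (by fun_prop) fun θ => circ_ext hR θ).norm
  have hpos : ∀ θ : ℝ, 0 < ‖deriv (ψ l) ((R : ℂ) * Complex.exp ((θ : ℂ) * Complex.I))‖ :=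
    fun θ => (inv_pos.2 hX0).trans_le (hlow θ)
  have hpt : ∀ θ : ℝ,
      ‖deriv (ψ l) ((R : ℂ) * Complex.exp ((θ : ℂ) * Complex.I))‖ ^ (-p) ≤
      X ^ (p - 2) *
        ‖deriv (ψ l) ((R : ℂ) * Complex.exp ((θ : ℂ) * Complex.I))‖ ^ (-2 : ℝ) := by
    intro θ
    obtain ⟨w, hw⟩ : ∃ w : ℝ, w = ‖deriv (ψ l) ((R : ℂ) * Complex.exp ((θ : ℂ) * Complex.I))‖ :=
      ⟨_, rfl⟩
    have hw0 : 0 < w := by rw [hw]; exact hpos θ
    have hwX : X⁻¹ ≤ w := by rw [hw]; exact hlow θ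
    rw [← hw]
    have e1 : w ^ (-p) = w ^ (-(p - 2)) * w ^ (-2 : ℝ) := by
      rw [← Real.rpow_add hw0]
      congr 1
      ring
    rw [e1]
    apply mul_le_mul_of_nonneg_right _ (by positivity)
    rw [Real.rpow_neg hw0.le, ← Real.inv_rpow hw0.le]
    apply Real.rpow_le_rpow (by positivity) _ (by linarith)
    rw [inv_le_comm₀ hw0 hX0]
    exact hwX
  have hi : ∀ r : ℝ, IntervalIntegrable (fun θ : ℝ =>
      ‖deriv (ψ l) ((R : ℂ) * Complex.exp ((θ : ℂ) * Complex.I))‖ ^ r) volume 0 (2 * π) := by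
    intro r
    apply Continuous.intervalIntegrable
    exact hcont.rpow_const fun θ => Or.inl (hpos θ).ne'
  calc ∫ θ in (0:ℝ)..(2 * π),
        ‖deriv (ψ l) ((R : ℂ) * Complex.exp ((θ : ℂ) * Complex.I))‖ ^ (-p)
      ≤ ∫ θ in (0:ℝ)..(2 * π), X ^ (p - 2) *
        ‖deriv (ψ l) ((R : ℂ) * Complex.exp ((θ : ℂ) * Complex.I))‖ ^ (-2 : ℝ) :=
        intervalIntegral.integral_mono_on (by positivity) (hi _) ((hi _).const_mul _)
          fun θ _ => hpt θ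
    _ = X ^ (p - 2) * ∫ θ in (0:ℝ)..(2 * π),
        ‖deriv (ψ l) ((R : ℂ) * Complex.exp ((θ : ℂ) * Complex.I))‖ ^ (-2 : ℝ) := by
        rw [intervalIntegral.integral_const_mul]
    _ ≤ X ^ (p - 2) * (2 * π * (C * X ^ (99999 / 100000 : ℝ))) :=
        mul_le_mul_of_nonneg_left h1 (by positivity)
    _ = 2 * π * (C * X ^ (p - 1 - 1 / 100000)) := by
        have e1 : p - 1 - 1 / 100000 = (p - 2) + 99999 / 100000 := by ring
        rw [e1, Real.rpow_add hX0]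
        ring

end Pool.Agent.Helper58.QC
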