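import Mathlib

set_option autoImplicit false

open MeasureTheory Set Metric Filter Topology Complex
open scoped Real ComplexConjugate

/-!
Hadamard's three circles for circle means of holomorphic families of functions.
-/

namespace Pool.Agent.Helper58.QC

/-- holomorphic dependence of an integral on a parameter -/
theorem param_hol {F : ℂ → ℝ → ℂ} (hF : ∀ θ, DifferentiableOn ℂ (fun l => F l θ) (ball 0 1))
    (hc : ContinuousOn (fun p : ℂ × ℝ => F p.1 p.2) (ball (0:ℂ) 1 ×ˢ univ)) (a b : ℝ) :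
    DifferentiableOn ℂ (fun l => ∫ θ in a..b, F l θ) (ball 0 1) := by
  intro l₀ hl₀
  apply DifferentiableAt.differentiableWithinAt
  obtain ⟨ρ, hρ⟩ : ∃ ρ : ℝ, ρ = (1 - ‖l₀‖) / 3 := ⟨_, rfl⟩
  have hn : ‖l₀‖ < 1 := mem_ball_zero_iff.1 hl₀
  have hρ0 : 0 < ρ := by rw [hρ]; linarith
  have hsub : closedBall l₀ (2 * ρ) ⊆ ball 0 1 := by
    intro l hl
    rw [mem_closedBall, dist_eq_norm] at hl
    rw [mem_ball_zero_iff]
    have : ‖l‖ ≤ ‖l₀‖ + ‖l - l₀‖ := by
      calc ‖l‖ = ‖l₀ + (l - l₀)‖ := by congr 1; ring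
        _ ≤ _ := norm_add_le _ _
    linarith
  have hcθ : ∀ l ∈ ball (0:ℂ) 1, Continuous (fun θ => F l θ) := by
    intro l hl
    exact hc.comp_continuous (f := fun θ : ℝ => (l, θ)) (by fun_prop) fun θ => ⟨hl, mem_univ _⟩
  obtain ⟨M, hM⟩ := ((isCompact_closedBall l₀ (2 * ρ)).prod
    (isCompact_uIcc (a := a) (b := b))).exists_bound_of_continuousOn
    (hc.mono (prod_mono hsub (subset_univ _)))
  have key := intervalIntegral.hasDerivAt_integral_of_dominated_loc_of_deriv_le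
    (μ := volume) (a := a) (b := b) (F := F) (F' := fun l θ => deriv (fun l => F l θ) l)
    (x₀ := l₀) (s := ball l₀ ρ) (bound := fun _ => M / ρ) (ball_mem_nhds _ hρ0) ?_ ?_ ?_ ?_ ?_ ?_
  · exact key.2.differentiableAt
  · filter_upwards [isOpen_ball.mem_nhds hl₀] with l hl
    exact (hcθ l hl).aestronglyMeasurable
  · exact (hcθ l₀ hl₀).intervalIntegrable _ _
  · -- the derivative is a limit of continuous functions
    have hlim : ∀ θ : ℝ, Tendsto (fun n : ℕ => ((ρ / (n + 1) : ℝ) : ℂ)⁻¹ *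
        (F (l₀ + ((ρ / (n + 1) : ℝ) : ℂ)) θ - F l₀ θ)) atTop
        (𝓝 (deriv (fun l => F l θ) l₀)) := by
      intro θ
      have hd : HasDerivAt (fun l => F l θ) (deriv (fun l => F l θ) l₀) l₀ :=
        ((hF θ).differentiableAt (isOpen_ball.mem_nhds hl₀)).hasDerivAt
      have h2 := hd.tendsto_slope_zero
      have h3 : Tendsto (fun n : ℕ => ((ρ / (n + 1) : ℝ) : ℂ)) atTop (𝓝[≠] 0) := by
        rw [tendsto_nhdsWithin_iff]
        constructor
        · have h4 : Tendsto (fun n : ℕ => (ρ / ((n : ℝ) + 1))) atTop (𝓝 0) := by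
            apply Tendsto.const_div_atTop
            exact tendsto_natCast_atTop_atTop.atTop_add tendsto_const_nhds
          have h5 := (Complex.continuous_ofReal.tendsto 0).comp h4
          simpa [Function.comp_def] using h5
        · refine Eventually.of_forall fun n => ?_
          have : (0:ℝ) < ρ / ((n : ℝ) + 1) := by positivity
          simp only [mem_compl_iff, mem_singleton_iff]
          exact_mod_cast this.ne'
      have h6 := h2.comp h3
      simpa [Function.comp_def, smul_eq_mul] using h6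
    refine aestronglyMeasurable_of_tendsto_ae (u := atTop) (f := fun (n : ℕ) (θ : ℝ) =>
      ((ρ / (n + 1) : ℝ) : ℂ)⁻¹ * (F (l₀ + ((ρ / (n + 1) : ℝ) : ℂ)) θ - F l₀ θ)) ?_
      (Eventually.of_forall hlim)
    intro n
    have hm : l₀ + ((ρ / (n + 1) : ℝ) : ℂ) ∈ ball (0:ℂ) 1 := by
      apply hsub
      rw [mem_closedBall, dist_eq_norm, add_sub_cancel_left, Complex.norm_real,
        Real.norm_of_nonneg (by positivity)]
      have h7 : ρ / ((n:ℝ) + 1) ≤ ρ := div_le_self hρ0.le (by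
        have : (0:ℝ) ≤ n := Nat.cast_nonneg n
        linarith)
      linarith
    exact (continuous_const.mul ((hcθ _ hm).sub (hcθ _ hl₀))).aestronglyMeasurable
  · refine Eventually.of_forall fun θ hθ l hl => ?_
    have hθ' : θ ∈ uIcc a b := uIoc_subset_uIcc hθ
    have hsb : closedBall l ρ ⊆ closedBall l₀ (2 * ρ) := by
      apply closedBall_subset_closedBall'
      rw [mem_ball] at hl
      linarith
    refine Complex.norm_deriv_le_of_forall_mem_sphere_norm_le hρ0 ?_ ?_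
    · apply DifferentiableOn.diffContOnCl
      rw [closure_ball _ hρ0.ne']
      exact (hF θ).mono (hsb.trans hsub)
    · intro z hz
      exact hM (z, θ) ⟨hsb (sphere_subset_closedBall hz), hθ'⟩
  · exact intervalIntegrable_const
  · refine Eventually.of_forall fun θ _ l hl => ?_
    have hl' : l ∈ ball (0:ℂ) 1 := hsub ((ball_subset_closedBall.trans
      (closedBall_subset_closedBall (by linarith))) hl)
    exact ((hF θ).differentiableAt (isOpen_ball.mem_nhds hl')).hasDerivAt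

/-- Hadamard's three circles -/
theorem three_circles {G : ℂ → ℂ} (hG : DifferentiableOn ℂ G (ball 0 1)) {r₀ κ A B : ℝ}
    (h0 : 0 < r₀) (hκ : r₀ < κ) (hκ1 : κ < 1) (hA : ∀ l : ℂ, ‖l‖ = r₀ → ‖G l‖ ≤ A)
    (hB : ∀ l : ℂ, ‖l‖ = κ → ‖G l‖ ≤ B) {l₀ : ℂ} (hl : r₀ ≤ ‖l₀‖) (hl' : ‖l₀‖ ≤ κ) :
    ‖G l₀‖ ≤ A ^ (1 - (Real.log ‖l₀‖ - Real.log r₀) / (Real.log κ - Real.log r₀)) *
      B ^ ((Real.log ‖l₀‖ - Real.log r₀) / (Real.log κ - Real.log r₀)) := by
  have hκ0 : 0 < κ := h0.trans hκ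
  have hl0 : l₀ ≠ 0 := by
    intro h
    rw [h, norm_zero] at hl
    linarith
  have hlog : Real.log r₀ < Real.log κ := Real.log_lt_log h0 hκ
  have hmaps : ∀ z : ℂ, z.re ≤ Real.log κ → Complex.exp z ∈ closedBall (0:ℂ) κ := by
    intro z hz
    rw [mem_closedBall_zero_iff, Complex.norm_exp]
    calc Real.exp z.re ≤ Real.exp (Real.log κ) := Real.exp_le_exp.2 hz
      _ = κ := Real.exp_log hκ0
  have hsub : closedBall (0:ℂ) κ ⊆ ball 0 1 := closedBall_subset_ball hκ1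
  have hdiff : DifferentiableOn ℂ (fun z => G (Complex.exp z)) {z : ℂ | z.re < 0} := by
    apply hG.comp Complex.differentiable_exp.differentiableOn
    intro z hz
    rw [mem_ball_zero_iff, Complex.norm_exp, Real.exp_lt_one_iff]
    exact hz
  have hlogκ : Real.log κ < 0 := Real.log_neg hκ0 hκ1
  have hopen : IsOpen {z : ℂ | z.re < 0} := isOpen_lt Complex.continuous_re continuous_const
  have key := Complex.HadamardThreeLines.norm_le_interp_of_mem_verticalClosedStrip'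
    (f := fun z => G (Complex.exp z)) (z := Complex.log l₀) (a := A) (b := B)
    (l := Real.log r₀) (u := Real.log κ) hlog ?_ ?_ ?_ ?_ ?_
  · simp only [Complex.exp_log hl0, Complex.log_re] at key
    exact key
  · rw [Complex.HadamardThreeLines.verticalClosedStrip, mem_preimage, Complex.log_re]
    exact ⟨Real.log_le_log h0 hl, Real.log_le_log (h0.trans_le hl) hl'⟩
  · apply DifferentiableOn.diffContOnCl
    apply hdiff.mono
    intro z hz
    have h1 : closure (Complex.HadamardThreeLines.verticalStrip (Real.log r₀) (Real.log κ)) ⊆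
        {z : ℂ | z.re ≤ Real.log κ} := by
      apply closure_minimal _ (isClosed_le Complex.continuous_re continuous_const)
      intro w hw
      exact (hw.2).le
    exact lt_of_le_of_lt (h1 hz) hlogκ
  · obtain ⟨M, hM⟩ := (isCompact_closedBall (0:ℂ) κ).exists_bound_of_continuousOn
      (hG.continuousOn.mono hsub)
    refine ⟨M, ?_⟩
    rintro _ ⟨z, hz, rfl⟩
    exact hM _ (hmaps z hz.2)
  · intro z hz
    apply hA
    rw [Complex.norm_exp]
    have : z.re = Real.log r₀ := hz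
    rw [this, Real.exp_log h0]
  · intro z hz
    apply hB
    rw [Complex.norm_exp]
    have : z.re = Real.log κ := hz
    rw [this, Real.exp_log hκ0]

variable {F : ℂ → ℝ → ℂ}

/-- the phase at one parameter value -/
noncomputable def ph (F : ℂ → ℝ → ℂ) (l₀ : ℂ) (θ : ℝ) : ℂ := conj (F l₀ θ) / ‖F l₀ θ‖

theorem ph_norm (hne : ∀ l θ, F l θ ≠ 0) (l₀ : ℂ) (θ : ℝ) : ‖ph F l₀ θ‖ = 1 := by
  unfold ph
  have h := norm_pos_iff.2 (hne l₀ θ)
  rw [norm_div, RCLike.norm_conj, Complex.norm_real, norm_norm, div_self h.ne']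

theorem ph_mul (hne : ∀ l θ, F l θ ≠ 0) (l₀ : ℂ) (θ : ℝ) :
    F l₀ θ * ph F l₀ θ = (‖F l₀ θ‖ : ℂ) := by
  unfold ph
  have h := norm_pos_iff.2 (hne l₀ θ)
  have h' : ((‖F l₀ θ‖ : ℝ) : ℂ) ≠ 0 := by exact_mod_cast h.ne'
  rw [mul_div_assoc', Complex.mul_conj, Complex.normSq_eq_norm_sq, div_eq_iff h']
  push_cast
  ring

theorem hcθ (hc : ContinuousOn (fun p : ℂ × ℝ => F p.1 p.2) (ball (0:ℂ) 1 ×ˢ univ)) {l : ℂ}
    (hl : l ∈ ball (0:ℂ) 1) : Continuous (fun θ => F l θ) :=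
  hc.comp_continuous (f := fun θ : ℝ => (l, θ)) (by fun_prop) fun θ => ⟨hl, mem_univ _⟩

/-- the scalar function with the value of the mean at `l₀` -/
theorem exists_G (hF : ∀ θ, DifferentiableOn ℂ (fun l => F l θ) (ball 0 1))
    (hc : ContinuousOn (fun p : ℂ × ℝ => F p.1 p.2) (ball (0:ℂ) 1 ×ˢ univ))
    (hne : ∀ l θ, F l θ ≠ 0) {l₀ : ℂ} (hl₀ : l₀ ∈ ball (0:ℂ) 1) {a b : ℝ} (hab : a ≤ b) :
    ∃ G : ℂ → ℂ, DifferentiableOn ℂ G (ball 0 1) ∧
      (∀ l ∈ ball (0:ℂ) 1, ‖G l‖ ≤ ∫ θ in a..b, ‖F l θ‖) ∧ ‖G l₀‖ = ∫ θ in a..b, ‖F l₀ θ‖ := by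
  have hphc : Continuous (ph F l₀) := by
    unfold ph
    have h1 := hcθ hc hl₀
    have h2 : Continuous (fun θ => conj (F l₀ θ)) := Complex.continuous_conj.comp h1
    have h3 : Continuous (fun θ => ((‖F l₀ θ‖ : ℝ) : ℂ)) :=
      Complex.continuous_ofReal.comp h1.norm
    exact h2.div h3 fun θ => by exact_mod_cast (norm_pos_iff.2 (hne l₀ θ)).ne'
  refine ⟨fun l => ∫ θ in a..b, F l θ * ph F l₀ θ, ?_, ?_, ?_⟩
  · apply param_hol (F := fun l θ => F l θ * ph F l₀ θ)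
    · intro θ
      exact (hF θ).mul_const _
    · exact hc.mul (hphc.comp continuous_snd).continuousOn
  · intro l hl
    refine (intervalIntegral.norm_integral_le_integral_norm hab).trans (le_of_eq ?_)
    apply intervalIntegral.integral_congr
    intro θ _
    simp only
    rw [norm_mul, ph_norm hne, mul_one]
  · have h1 : (∫ θ in a..b, F l₀ θ * ph F l₀ θ) = ((∫ θ in a..b, ‖F l₀ θ‖ : ℝ) : ℂ) := by
      rw [← intervalIntegral.integral_ofReal]
      apply intervalIntegral.integral_congr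
      intro θ _
      exact ph_mul hne l₀ θ
    simp only
    rw [h1, Complex.norm_real, Real.norm_of_nonneg]
    exact intervalIntegral.integral_nonneg hab fun θ _ => norm_nonneg _

/-- **three circles for the means** -/
theorem three_int (hF : ∀ θ, DifferentiableOn ℂ (fun l => F l θ) (ball 0 1))
    (hc : ContinuousOn (fun p : ℂ × ℝ => F p.1 p.2) (ball (0:ℂ) 1 ×ˢ univ))
    (hne : ∀ l θ, F l θ ≠ 0) {a b : ℝ} (hab : a ≤ b) {r₀ κ A B : ℝ}
    (h0 : 0 < r₀) (hκ : r₀ < κ) (hκ1 : κ < 1)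
    (hA : ∀ l : ℂ, ‖l‖ = r₀ → ∫ θ in a..b, ‖F l θ‖ ≤ A)
    (hB : ∀ l : ℂ, ‖l‖ = κ → ∫ θ in a..b, ‖F l θ‖ ≤ B) {l₀ : ℂ} (hl : r₀ ≤ ‖l₀‖)
    (hl' : ‖l₀‖ ≤ κ) :
    ∫ θ in a..b, ‖F l₀ θ‖ ≤
      A ^ (1 - (Real.log ‖l₀‖ - Real.log r₀) / (Real.log κ - Real.log r₀)) *
      B ^ ((Real.log ‖l₀‖ - Real.log r₀) / (Real.log κ - Real.log r₀)) := by
  have hl₀ : l₀ ∈ ball (0:ℂ) 1 := by rw [mem_ball_zero_iff]; linarith
  obtain ⟨G, hG, hG1, hG2⟩ := exists_G hF hc hne hl₀ hab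
  rw [← hG2]
  apply three_circles hG h0 hκ hκ1 _ _ hl hl'
  · intro l h
    exact (hG1 l (by rw [mem_ball_zero_iff, h]; linarith)).trans (hA l h)
  · intro l h
    exact (hG1 l (by rw [mem_ball_zero_iff, h]; linarith)).trans (hB l h)

/-- **maximum principle for the means** -/
theorem max_int (hF : ∀ θ, DifferentiableOn ℂ (fun l => F l θ) (ball 0 1))
    (hc : ContinuousOn (fun p : ℂ × ℝ => F p.1 p.2) (ball (0:ℂ) 1 ×ˢ univ))
    (hne : ∀ l θ, F l θ ≠ 0) {a b : ℝ} (hab : a ≤ b) {κ B : ℝ} (h0 : 0 < κ) (hκ1 : κ < 1)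
    (hB : ∀ l : ℂ, ‖l‖ = κ → ∫ θ in a..b, ‖F l θ‖ ≤ B) {l₀ : ℂ} (hl' : ‖l₀‖ ≤ κ) :
    ∫ θ in a..b, ‖F l₀ θ‖ ≤ B := by
  have hl₀ : l₀ ∈ ball (0:ℂ) 1 := by rw [mem_ball_zero_iff]; linarith
  obtain ⟨G, hG, hG1, hG2⟩ := exists_G hF hc hne hl₀ hab
  rw [← hG2]
  have hsub : closedBall (0:ℂ) κ ⊆ ball 0 1 := closedBall_subset_ball hκ1
  refine Complex.norm_le_of_forall_mem_frontier_norm_le (U := ball (0:ℂ) κ) isBounded_ball
    ?_ ?_ ?_
  · apply DifferentiableOn.diffContOnCl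
    rw [closure_ball _ h0.ne']
    exact hG.mono hsub
  · intro z hz
    rw [frontier_ball _ h0.ne', mem_sphere_zero_iff_norm] at hz
    exact (hG1 z (by rw [mem_ball_zero_iff, hz]; linarith)).trans (hB z hz)
  · rw [closure_ball _ h0.ne', mem_closedBall_zero_iff]
    exact hl'

end Pool.Agent.Helper58.QC
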